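import Pool.Agent.Work.MP_0f91f8_co.EFh.Cm

/-!
Block EF: the finite approximation of the spectral measure.
-/

open Filter Topology Finset
open scoped ComplexConjugate

namespace Pool.Agent.Work.MP_0f91f8_co.EFh

/-- `rr` as a function of natural numbers -/
def rn (m : Set ℕ+ → ℝ) (A : Set ℕ+) (x y : ℕ) : ℝ := rr m A x.toPNat' y.toPNat'

namespace Apx

open Cmx

variable {m : Set ℕ+ → ℝ} {A : Set ℕ+}

theorem rn_coe (x y : ℕ+) : rn m A x y = rr m A x y := by
  unfold rn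
  rw [PNat.coe_toPNat', PNat.coe_toPNat']

theorem mono (hm : InvMean m) {B C : Set ℕ+} (h : B ⊆ C) : m B ≤ m C := by
  have h1 := hm.add B (C \ B) Set.disjoint_sdiff_right
  rw [Set.union_diff_cancel h] at h1
  have h2 := hm.nonneg (C \ B)
  linarith

theorem le_one (hm : InvMean m) (B : Set ℕ+) : m B ≤ 1 := by
  rw [← hm.total]
  exact mono hm (Set.subset_univ _)

theorem rr_scale (hm : InvMean m) (k x y : ℕ+) : rr m A (k * x) (k * y) = rr m A x y := by
  unfold rr
  rw [← hm.inv k {n | x * n ∈ A ∧ y * n ∈ A}]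
  congr 1
  ext n
  simp only [Set.mem_setOf_eq]
  rw [show k * x * n = x * (k * n) by ring, show k * y * n = y * (k * n) by ring]

theorem rn_scale (hm : InvMean m) {k x y : ℕ} (hk : 0 < k) (hx : 0 < x) (hy : 0 < y) :
    rn m A (k * x) (k * y) = rn m A x y := by
  obtain ⟨k, rfl⟩ : ∃ k' : ℕ+, (k' : ℕ) = k := ⟨⟨k, hk⟩, rfl⟩
  obtain ⟨x, rfl⟩ : ∃ k' : ℕ+, (k' : ℕ) = x := ⟨⟨x, hx⟩, rfl⟩
  obtain ⟨y, rfl⟩ : ∃ k' : ℕ+, (k' : ℕ) = y := ⟨⟨y, hy⟩, rfl⟩
  rw [← PNat.mul_coe, ← PNat.mul_coe, rn_coe, rn_coe]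
  exact rr_scale hm k x y

theorem rn_nonneg (hm : InvMean m) (x y : ℕ) : 0 ≤ rn m A x y := hm.nonneg _

theorem rn_le_one (hm : InvMean m) (x y : ℕ) : rn m A x y ≤ 1 := le_one hm _

/-- the box of exponents -/
def box (K L : ℕ) : Finset (PK K → ℕ) := Fintype.piFinset fun _ => range L

theorem card_box (K L : ℕ) : (box K L).card = L ^ (PK K).card := by
  unfold box
  rw [Fintype.card_piFinset]
  simp

/-- the double sum -/
noncomputable def dsum (m : Set ℕ+ → ℝ) (A : Set ℕ+) (K L : ℕ) (g : ℕ → Circle) : ℂ :=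
  ∑ a ∈ box K L, ∑ b ∈ box K L, conj (cm g (num a)) * cm g (num b) * (rn m A (num a) (num b) : ℂ)

theorem dsum_real (hm : InvMean m) (K L : ℕ) (g : ℕ → Circle) :
    ∃ v : ℝ, 0 ≤ v ∧ dsum m A K L g = (v : ℂ) := by
  obtain ⟨v, hv, h⟩ := Pdx.pd hm.nonneg hm.add
    (fun a : box K L => {n : ℕ+ | (num (a : PK K → ℕ)).toPNat' * n ∈ A})
    (fun a => conj (cm g (num (a : PK K → ℕ))))
  refine ⟨v, hv, ?_⟩
  rw [← h]
  unfold dsum
  rw [← Finset.sum_coe_sort (box K L)]
  refine Finset.sum_congr rfl fun a _ => ?_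
  rw [← Finset.sum_coe_sort (box K L)]
  refine Finset.sum_congr rfl fun b _ => ?_
  rw [Complex.conj_conj]
  rfl

/-- the weights -/
noncomputable def wt (m : Set ℕ+ → ℝ) (A : Set ℕ+) (K L M : ℕ) [NeZero M] (t : PK K → ZMod M) : ℝ :=
  (dsum m A K L (pt M t)).re / ((M : ℝ) ^ (PK K).card * (box K L).card)

theorem wt_nonneg (hm : InvMean m) (K L M : ℕ) [NeZero M] (t : PK K → ZMod M) :
    0 ≤ wt m A K L M t := by
  obtain ⟨v, hv, h⟩ := dsum_real (A := A) hm K L (pt M t)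
  unfold wt
  rw [h, Complex.ofReal_re]
  positivity

theorem wt_coe (hm : InvMean m) (K L M : ℕ) [NeZero M] (t : PK K → ZMod M) :
    (wt m A K L M t : ℂ) =
      dsum m A K L (pt M t) / ((M : ℂ) ^ (PK K).card * (box K L).card) := by
  obtain ⟨v, hv, h⟩ := dsum_real (A := A) hm K L (pt M t)
  unfold wt
  rw [h, Complex.ofReal_re]
  push_cast
  rfl

/-- the integral against the approximation -/
theorem int_formula (hm : InvMean m) (K L M : ℕ) [NeZero M] {x y : ℕ} (hx : 0 < x) (hy : 0 < y) :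
    ∑ t, (wt m A K L M t : ℂ) * (cm (pt M t) x * conj (cm (pt M t) y)) =
      (∑ a ∈ box K L, ∑ b ∈ box K L, if ∀ p : PK K, ((num b * x).factorization p : ZMod M) =
        ((num a * y).factorization p : ZMod M) then (rn m A (num a) (num b) : ℂ) else 0) /
          ((box K L).card : ℂ) := by
  have hM : (M : ℂ) ^ (PK K).card ≠ 0 := pow_ne_zero _ (Nat.cast_ne_zero.2 (NeZero.ne M))
  have h1 : ∀ t, (wt m A K L M t : ℂ) * (cm (pt M t) x * conj (cm (pt M t) y)) =
      (∑ a ∈ box K L, ∑ b ∈ box K L, (rn m A (num a) (num b) : ℂ) *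
        (cm (pt M t) (num b * x) * conj (cm (pt M t) (num a * y)))) /
          ((M : ℂ) ^ (PK K).card * (box K L).card) := by
    intro t
    rw [wt_coe hm, div_mul_eq_mul_div]
    congr 1
    unfold dsum
    rw [Finset.sum_mul]
    refine Finset.sum_congr rfl fun a _ => ?_
    rw [Finset.sum_mul]
    refine Finset.sum_congr rfl fun b _ => ?_
    rw [cm_mul _ (num_pos b) hx, cm_mul _ (num_pos a) hy, map_mul]
    ring
  rw [Finset.sum_congr rfl fun t _ => h1 t, ← Finset.sum_div]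
  have h2 : ∑ t : PK K → ZMod M, ∑ a ∈ box K L, ∑ b ∈ box K L, (rn m A (num a) (num b) : ℂ) *
        (cm (pt M t) (num b * x) * conj (cm (pt M t) (num a * y))) =
      (M : ℂ) ^ (PK K).card * ∑ a ∈ box K L, ∑ b ∈ box K L,
        if ∀ p : PK K, ((num b * x).factorization p : ZMod M) =
        ((num a * y).factorization p : ZMod M) then (rn m A (num a) (num b) : ℂ) else 0 := by
    rw [Finset.sum_comm, Finset.mul_sum]
    refine Finset.sum_congr rfl fun a _ => ?_
    rw [Finset.sum_comm, Finset.mul_sum]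
    refine Finset.sum_congr rfl fun b _ => ?_
    rw [← Finset.mul_sum, orth]
    split_ifs
    · ring
    · ring
  rw [h2, mul_div_mul_left _ _ hM]

end Apx

end Pool.Agent.Work.MP_0f91f8_co.EFh
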