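import Pool.Agent.Work.MP_0f91f8_co.EFh.Pd

/-!
Block EF: the completely multiplicative functions, the finite Fourier approximation.
-/

open Filter Topology Finset
open scoped ComplexConjugate

namespace Pool.Agent.Work.MP_0f91f8_co.EFh

/-- the completely multiplicative function with the values `g p` at the primes `p` -/
noncomputable def cm (g : ℕ → Circle) (n : ℕ) : ℂ := n.factorization.prod fun p k => (g p : ℂ) ^ k

namespace Cmx

theorem cm_one (g : ℕ → Circle) : cm g 1 = 1 := by
  simp [cm]

theorem cm_mul (g : ℕ → Circle) {m n : ℕ} (hm : 0 < m) (hn : 0 < n) :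
    cm g (m * n) = cm g m * cm g n := by
  unfold cm
  rw [Nat.factorization_mul hm.ne' hn.ne']
  exact Finsupp.prod_add_index' (fun p => pow_zero _) (fun p a b => pow_add _ a b)

theorem norm_cm (g : ℕ → Circle) (n : ℕ) : ‖cm g n‖ = 1 := by
  unfold cm Finsupp.prod
  rw [norm_prod]
  refine Finset.prod_eq_one fun p _ => ?_
  rw [norm_pow, Circle.norm_coe, one_pow]

theorem cm_CM (g : ℕ → Circle) : CM (cm g) := ⟨fun _ _ hm hn => cm_mul g hm hn, fun n _ => norm_cm g n⟩

theorem continuous_cm (n : ℕ) : Continuous fun g : ℕ → Circle => cm g n := by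
  unfold cm Finsupp.prod
  refine continuous_finsetProd _ fun p _ => ?_
  exact (continuous_subtype_val.comp (continuous_apply p)).pow _

theorem cm_prime (g : ℕ → Circle) {p : ℕ} (hp : p.Prime) : cm g p = g p := by
  unfold cm
  rw [hp.factorization]
  have h := Finsupp.prod_single_index (a := p) (b := 1)
    (h := fun p k => ((g p : Circle) : ℂ) ^ k) (pow_zero _)
  rw [h, pow_one]

theorem cm_mul_conj (g : ℕ → Circle) (n : ℕ) : cm g n * conj (cm g n) = 1 := by
  rw [Complex.mul_conj', norm_cm]
  simp

/-- the primes below `K` -/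
def PK (K : ℕ) : Finset ℕ := (range K).filter Nat.Prime

theorem mem_PK {K p : ℕ} : p ∈ PK K ↔ p < K ∧ p.Prime := by
  simp [PK]

/-- the number with the exponents `a` -/
def num {K : ℕ} (a : PK K → ℕ) : ℕ := ∏ p : PK K, (p : ℕ) ^ a p

theorem num_pos {K : ℕ} (a : PK K → ℕ) : 0 < num a :=
  Finset.prod_pos fun p _ => pow_pos (mem_PK.1 p.2).2.pos _

theorem cm_num (g : ℕ → Circle) {K : ℕ} (a : PK K → ℕ) : cm g (num a) = ∏ p : PK K, ((g p : Circle) : ℂ) ^ a p := by
  unfold num
  have : ∀ s : Finset (PK K), cm g (∏ p ∈ s, (p : ℕ) ^ a p) = ∏ p ∈ s, ((g p : Circle) : ℂ) ^ a p := by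
    intro s
    induction s using Finset.induction_on with
    | empty => simp [cm_one]
    | insert q s hq ih =>
      rw [Finset.prod_insert hq, Finset.prod_insert hq, cm_mul, ih]
      · congr 1
        have hp := (mem_PK.1 q.2).2
        unfold cm
        rw [hp.factorization_pow]
        exact Finsupp.prod_single_index (pow_zero _)
      · exact pow_pos (mem_PK.1 q.2).2.pos _
      · exact Finset.prod_pos fun p _ => pow_pos (mem_PK.1 p.2).2.pos _
  exact this univ

theorem fac_num {K : ℕ} (a : PK K → ℕ) (p : PK K) : (num a).factorization p = a p := by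
  unfold num
  rw [Nat.factorization_prod (S := univ) (g := fun q : PK K => (q : ℕ) ^ a q)
    (fun q _ => (pow_pos (mem_PK.1 q.2).2.pos _).ne')]
  rw [Finsupp.finsetSum_apply]
  rw [Finset.sum_eq_single p]
  · rw [(mem_PK.1 p.2).2.factorization_pow, Finsupp.single_eq_same]
  · intro q _ hq
    rw [(mem_PK.1 q.2).2.factorization_pow, Finsupp.single_eq_of_ne]
    intro h
    exact hq (Subtype.ext h.symm)
  · intro h
    exact absurd (mem_univ p) h

/-- the point of the torus with the exponents `t` -/
noncomputable def pt {K : ℕ} (M : ℕ) [NeZero M] (t : PK K → ZMod M) (p : ℕ) : Circle :=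
  if h : p ∈ PK K then ZMod.toCircle (t ⟨p, h⟩) else 1

theorem cm_pt {K : ℕ} (M : ℕ) [NeZero M] (t : PK K → ZMod M) (n : ℕ) :
    cm (pt M t) n = ∏ p : PK K, ZMod.stdAddChar (t p * (n.factorization p : ZMod M)) := by
  have h1 : cm (pt M t) n = ∏ p ∈ PK K, ((pt M t p : Circle) : ℂ) ^ (n.factorization p) := by
    unfold cm Finsupp.prod
    have e1 : ∏ p ∈ n.factorization.support, ((pt M t p : Circle) : ℂ) ^ (n.factorization p) =
        ∏ p ∈ n.factorization.support ∪ PK K, ((pt M t p : Circle) : ℂ) ^ (n.factorization p) := by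
      refine Finset.prod_subset subset_union_left fun p _ hp => ?_
      rw [Finsupp.notMem_support_iff.1 hp, pow_zero]
    have e2 : ∏ p ∈ PK K, ((pt M t p : Circle) : ℂ) ^ (n.factorization p) =
        ∏ p ∈ n.factorization.support ∪ PK K, ((pt M t p : Circle) : ℂ) ^ (n.factorization p) := by
      refine Finset.prod_subset subset_union_right fun p _ hp => ?_
      unfold pt
      rw [dif_neg hp]
      simp
    rw [e1, e2]
  rw [h1, ← Finset.prod_coe_sort]
  refine Finset.prod_congr rfl fun p _ => ?_
  unfold pt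
  rw [dif_pos p.2, mul_comm, ← nsmul_eq_mul, AddChar.map_nsmul_eq_pow, ZMod.stdAddChar_apply]

/-- orthogonality -/
theorem orth {K : ℕ} (M : ℕ) [NeZero M] (u v : ℕ) :
    ∑ t : PK K → ZMod M, cm (pt M t) u * conj (cm (pt M t) v) =
      if ∀ p : PK K, (u.factorization p : ZMod M) = (v.factorization p : ZMod M)
        then (M : ℂ) ^ (PK K).card else 0 := by
  classical
  have h1 : ∀ t : PK K → ZMod M, cm (pt M t) u * conj (cm (pt M t) v) =
      ∏ p : PK K, ZMod.stdAddChar (t p * ((u.factorization p : ZMod M) -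
        (v.factorization p : ZMod M))) := by
    intro t
    rw [cm_pt, cm_pt, map_prod, ← Finset.prod_mul_distrib]
    refine Finset.prod_congr rfl fun p _ => ?_
    rw [mul_sub, sub_eq_add_neg, AddChar.map_add_eq_mul, AddChar.map_neg_eq_conj]
  rw [Finset.sum_congr rfl fun t _ => h1 t]
  have h2 := (Finset.prod_univ_sum (fun _ : PK K => (univ : Finset (ZMod M)))
    (fun p s => ZMod.stdAddChar (s * ((u.factorization p : ZMod M) -
        (v.factorization p : ZMod M)))))
  rw [Fintype.piFinset_univ] at h2
  rw [← h2]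
  have h3 : ∀ p : PK K, ∑ s : ZMod M, (ZMod.stdAddChar (s * ((u.factorization p : ZMod M) -
        (v.factorization p : ZMod M))) : ℂ) =
        if (u.factorization p : ZMod M) = (v.factorization p : ZMod M) then (M : ℂ) else 0 := by
    intro p
    rw [AddChar.sum_mulShift _ (ZMod.isPrimitive_stdAddChar M)]
    simp [sub_eq_zero, ZMod.card]
  rw [Finset.prod_congr rfl fun p _ => h3 p]
  split_ifs with h
  · rw [Finset.prod_congr rfl fun p _ => if_pos (h p), Finset.prod_const, Finset.card_univ,
      Fintype.card_coe]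
  · push Not at h
    obtain ⟨p, hp⟩ := h
    exact Finset.prod_eq_zero (mem_univ p) (if_neg hp)

end Cmx

end Pool.Agent.Work.MP_0f91f8_co.EFh
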