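import Mathlib

/-!
Block EFh (first version of parts D and E of the collision theorem, MP_0f91f8_co): definitions.
-/

open Filter Topology Finset
open scoped ComplexConjugate

namespace Pool.Agent.Work.MP_0f91f8_co.EFh

/-- `f` is completely multiplicative and unimodular on the positive integers. -/
structure CM (f : ℕ → ℂ) : Prop where
  mul : ∀ m n, 0 < m → 0 < n → f (m * n) = f m * f n
  norm : ∀ n, 0 < n → ‖f n‖ = 1

/-- `m` is a finitely additive probability on the sets of positive integers which is invariant
under dilations: `m (A / k) = m A`, `A / k = {n : k n ∈ A}`. -/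
structure InvMean (m : Set ℕ+ → ℝ) : Prop where
  nonneg : ∀ A, 0 ≤ m A
  total : m Set.univ = 1
  add : ∀ A B, Disjoint A B → m (A ∪ B) = m A + m B
  inv : ∀ (k : ℕ+) (A : Set ℕ+), m {n | k * n ∈ A} = m A

/-- the measure of the set of the `n` with `n x` and `n y` in `A` -/
def rr (m : Set ℕ+ → ℝ) (A : Set ℕ+) (x y : ℕ+) : ℝ := m {n | x * n ∈ A ∧ y * n ∈ A}

end Pool.Agent.Work.MP_0f91f8_co.EFh
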