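import Pool.Agent.Work.MP_0f91f8_co.EFh.Defs

/-!
Block EF: positive definiteness, properties of `rr`, the passage from KEY to FINAL.
-/

open Filter Topology Finset
open scoped ComplexConjugate

namespace Pool.Agent.Work.MP_0f91f8_co.EFh

namespace Pdx

variable {α : Type} {m : Set α → ℝ}

theorem empty (hadd : ∀ A B, Disjoint A B → m (A ∪ B) = m A + m B) : m ∅ = 0 := by
  have h := hadd ∅ ∅ disjoint_bot_left
  rw [Set.union_empty] at h
  linarith

theorem pre_sum {β : Type} [DecidableEq β] (hadd : ∀ A B, Disjoint A B → m (A ∪ B) = m A + m B)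
    (f : α → β) (S : Finset β) : m {x | f x ∈ S} = ∑ s ∈ S, m {x | f x = s} := by
  induction S using Finset.induction_on with
  | empty =>
    rw [Finset.sum_empty]
    have : {x : α | f x ∈ (∅ : Finset β)} = ∅ := by
      ext x
      simp
    rw [this]
    exact empty hadd
  | insert b S hb ih =>
    rw [Finset.sum_insert hb, ← ih, ← hadd]
    · congr 1
      ext x
      simp [Finset.mem_insert]
    · rw [Set.disjoint_left]
      intro x hx hx'
      have h1 : f x = b := hx
      have h2 : f x ∈ S := hx'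
      rw [h1] at h2
      exact hb h2

/-- positive definiteness -/
theorem pd (h0 : ∀ A, 0 ≤ m A) (hadd : ∀ A B, Disjoint A B → m (A ∪ B) = m A + m B)
    {ι : Type} [Fintype ι] (B : ι → Set α) (c : ι → ℂ) :
    ∃ v : ℝ, 0 ≤ v ∧ ∑ j, ∑ k, c j * conj (c k) * (m (B j ∩ B k) : ℂ) = (v : ℂ) := by
  classical
  let f : α → Finset ι := fun x => univ.filter fun j => x ∈ B j
  let M : Finset ι → ℝ := fun s => m {x | f x = s}
  let I : Finset ι → ι → ℝ := fun s j => if j ∈ s then 1 else 0
  have h1 : ∀ j k, m (B j ∩ B k) = ∑ s : Finset ι, I s j * I s k * M s := by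
    intro j k
    have e : ∀ s : Finset ι, I s j * I s k * M s = if j ∈ s ∧ k ∈ s then M s else 0 := by
      intro s
      by_cases h1 : j ∈ s <;> by_cases h2 : k ∈ s <;> simp [I, h1, h2]
    rw [Finset.sum_congr rfl fun s _ => e s, ← Finset.sum_filter]
    rw [show (∑ s ∈ univ.filter (fun s : Finset ι => j ∈ s ∧ k ∈ s), M s) = _ from
      (pre_sum hadd f _).symm]
    congr 1
    ext x
    simp [f]
  have h2 : ∑ j, ∑ k, c j * conj (c k) * (m (B j ∩ B k) : ℂ) =
      ∑ s : Finset ι, ((M s * ‖∑ j, (I s j : ℂ) * c j‖ ^ 2 : ℝ) : ℂ) := by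
    have e1 : ∀ s : Finset ι, ((M s * ‖∑ j, (I s j : ℂ) * c j‖ ^ 2 : ℝ) : ℂ) =
        ∑ j, ∑ k, c j * conj (c k) * ((I s j * I s k * M s : ℝ) : ℂ) := by
      intro s
      push_cast
      rw [← Complex.mul_conj', map_sum, Finset.sum_mul_sum, Finset.mul_sum]
      refine Finset.sum_congr rfl fun j _ => ?_
      rw [Finset.mul_sum]
      refine Finset.sum_congr rfl fun k _ => ?_
      rw [map_mul, Complex.conj_ofReal]
      ring
    rw [Finset.sum_congr rfl fun s _ => e1 s]
    symm
    rw [Finset.sum_comm]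
    refine Finset.sum_congr rfl fun j _ => ?_
    rw [Finset.sum_comm]
    refine Finset.sum_congr rfl fun k _ => ?_
    rw [h1 j k, Complex.ofReal_sum, Finset.mul_sum]
  rw [h2, ← Complex.ofReal_sum]
  exact ⟨_, Finset.sum_nonneg fun s _ => mul_nonneg (h0 _) (by positivity), rfl⟩

end Pdx

end Pool.Agent.Work.MP_0f91f8_co.EFh
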